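import Pool.Agent.H11.NS.Targets

/-!
# Module OR2 of the board ns_modules
-/

set_option autoImplicit false

open Equiv (Perm)

namespace Pool.Agent.H91.NS.OR2

open Pool.Agent.H11.NS

/-- cyclic rotation of a product of pairwise commuting elements -/
theorem prod_shift {M : Type*} [Monoid M] (f : ℕ → M) (n : ℕ) (hcyc : f (n + 1) = f 0)
    (hcomm : ∀ i ≤ n, ∀ j ≤ n, Commute (f i) (f j)) :
    ((List.range (n + 1)).map fun j => f (j + 1)).prod = ((List.range (n + 1)).map f).prod := by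
  have h1 : ((List.range (n + 1)).map fun j => f (j + 1)).prod =
      ((List.range n).map fun j => f (j + 1)).prod * f 0 := by
    rw [List.range_succ, List.map_append, List.prod_append]
    simp [hcyc]
  have h2 : ((List.range (n + 1)).map f).prod =
      f 0 * ((List.range n).map fun j => f (j + 1)).prod := by
    rw [List.range_succ_eq_map, List.map_cons, List.prod_cons, List.map_map]
    rfl
  rw [h1, h2]
  symm
  apply (Commute.list_prod_right _ _ _).eq
  intro x hx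
  obtain ⟨j, hj, rfl⟩ := List.mem_map.mp hx
  rw [List.mem_range] at hj
  exact hcomm 0 (Nat.zero_le _) (j + 1) hj

/-- a `3`-element over an element of order three -/
theorem exists_three_elt {L Q : Type*} [Group L] [Finite L] [Group Q] (φ : L →* Q)
    (hφ : Function.Surjective φ) (τ : Q) (hτ : τ ^ 3 = 1) :
    ∃ (t : L) (r : ℕ), t ^ (3 ^ r) = 1 ∧ φ t = τ := by
  obtain ⟨y, hy⟩ := hφ τ
  obtain ⟨r, m, hm, hrm⟩ := Nat.exists_eq_pow_mul_and_not_dvd
    (orderOf_pos y).ne' 3 (by norm_num)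
  have hm3 : m % 3 = 1 ∨ m % 3 = 2 := by omega
  refine ⟨y ^ (m * (m % 3)), r, ?_, ?_⟩
  · rw [← pow_mul]
    have : m * (m % 3) * 3 ^ r = orderOf y * (m % 3) := by rw [hrm]; ring
    rw [this, pow_mul, pow_orderOf_eq_one, one_pow]
  · rw [map_pow, hy]
    have h1 : (m * (m % 3)) % 3 = 1 := by
      rcases hm3 with h | h <;> rw [h, Nat.mul_mod, h]
    have h2 : m * (m % 3) = 3 * (m * (m % 3) / 3) + 1 := by omega
    rw [h2, pow_add, pow_mul, hτ, one_pow, one_mul, pow_one]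

theorem pf_or2 : T_FP → T_OR1 → T_OR2 := by
  intro hFP hOR1 L _ _ Ω _ _ φ hφ K hKn hKker ℓ hℓ hℓK hcl g hg c₁ c₂ c₃ hc₁ hc₂ hc₃
    h12 h13 h23
  have hγ : ((φ g : alternatingGroup Ω) : Perm Ω) ^ ℓ = 1 := by
    rw [← Subgroup.coe_pow, ← map_pow, hg, map_one, Subgroup.coe_one]
  obtain ⟨τ, T, hτ3, hdis, hT, hT1, hT2, hT3, hT4⟩ :=
    hOR1 Ω ((φ g : alternatingGroup Ω) : Perm Ω) ℓ hℓ hγ c₁ c₂ c₃ hc₁ hc₂ hc₃ h12 h13 h23
  have hτ1 : (⟨τ, hτ3.mem_alternatingGroup⟩ : alternatingGroup Ω) ^ 3 = 1 := by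
    apply Subtype.ext
    have := pow_orderOf_eq_one τ
    rwa [hτ3.orderOf] at this
  obtain ⟨t₀, r, ht₀, hφt₀⟩ := exists_three_elt φ hφ _ hτ1
  -- the conjugates
  let t : ℕ → L := fun j => g ^ j * t₀ * (g ^ j)⁻¹
  have ht3 : ∀ j, t j ^ (3 ^ r) = 1 := by
    intro j
    change (g ^ j * t₀ * (g ^ j)⁻¹) ^ (3 ^ r) = 1
    rw [conj_pow, ht₀, mul_one, mul_inv_cancel]
  have hφt : ∀ j, ((φ (t j) : alternatingGroup Ω) : Perm Ω) =
      ((φ g : alternatingGroup Ω) : Perm Ω) ^ j * τ *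
        (((φ g : alternatingGroup Ω) : Perm Ω) ^ j)⁻¹ := by
    intro j
    change ((φ (g ^ j * t₀ * (g ^ j)⁻¹) : alternatingGroup Ω) : Perm Ω) = _
    rw [map_mul, map_mul, map_inv, map_pow, hφt₀]
    rfl
  have h3c : ∀ j, ((φ (t j) : alternatingGroup Ω) : Perm Ω).IsThreeCycle := by
    intro j
    rw [hφt j]
    unfold Equiv.Perm.IsThreeCycle
    rw [Equiv.Perm.cycleType_conj]
    exact hτ3
  have hcomK : ∀ i < ℓ, ∀ j < ℓ, i ≠ j → t i * t j * (t i)⁻¹ * (t j)⁻¹ ∈ K := by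
    intro i hi j hj hij
    apply hcl _ _ ⟨r, by rw [ht3 i]; exact K.one_mem⟩ ⟨r, by rw [ht3 j]; exact K.one_mem⟩
      (h3c i) (h3c j)
    rw [hφt i, hφt j]
    exact hdis i hi j hj hij
  have hcomQ : ∀ i < ℓ, ∀ j < ℓ, Commute (QuotientGroup.mk' K (t i))
      (QuotientGroup.mk' K (t j)) := by
    intro i hi j hj
    by_cases hij : i = j
    · subst hij
      exact Commute.refl _
    · have h := hcomK i hi j hj hij
      have h1 : QuotientGroup.mk' K (t i * t j * (t i)⁻¹ * (t j)⁻¹) = 1 := by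
        rw [← MonoidHom.mem_ker, QuotientGroup.ker_mk']
        exact h
      simp only [map_mul, map_inv] at h1
      change _ * _ = _ * _
      rw [mul_inv_eq_one, mul_inv_eq_iff_eq_mul] at h1
      exact h1
  obtain ⟨n, rfl⟩ : ∃ n, ℓ = n + 1 := ⟨ℓ - 1, by have := hℓ.pos; omega⟩
  have htcyc : t (n + 1) = t 0 := by
    change g ^ (n + 1) * t₀ * (g ^ (n + 1))⁻¹ = g ^ 0 * t₀ * (g ^ 0)⁻¹
    rw [hg, pow_zero]
  set s₀ : L := ((List.range (n + 1)).map t).prod with hs₀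
  have hconj : g * s₀ * g⁻¹ = ((List.range (n + 1)).map fun j => t (j + 1)).prod := by
    have h1 : g * s₀ * g⁻¹ = MulAut.conj g s₀ := rfl
    rw [h1, hs₀, map_list_prod, List.map_map]
    congr 1
    apply List.map_congr_left
    intro j _
    change g * (g ^ j * t₀ * (g ^ j)⁻¹) * g⁻¹ = g ^ (j + 1) * t₀ * (g ^ (j + 1))⁻¹
    rw [pow_succ']
    group
  have hQ : QuotientGroup.mk' K (g * s₀ * g⁻¹) = QuotientGroup.mk' K s₀ := by
    rw [hconj, hs₀, map_list_prod, map_list_prod, List.map_map, List.map_map]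
    exact prod_shift (fun j => QuotientGroup.mk' K (t j)) n (by simp only [htcyc])
      (fun i hi j hj => hcomQ i (by omega) j (by omega))
  have hmemK : g * s₀ * g⁻¹ * s₀⁻¹ ∈ K := by
    rw [← QuotientGroup.ker_mk' K, MonoidHom.mem_ker, map_mul, hQ, map_inv, mul_inv_cancel]
  obtain ⟨k, hk, hcomm⟩ := hFP L K hKn (n + 1) hℓ hℓK g ⟨1, by rw [pow_one, hg]⟩ s₀ hmemK
  have hφs₀ : ((φ s₀ : alternatingGroup Ω) : Perm Ω) = T := by
    rw [hT, hs₀, map_list_prod, List.map_map]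
    have h1 : ((((List.range (n + 1)).map (φ ∘ t)).prod : alternatingGroup Ω) : Perm Ω) =
        (alternatingGroup Ω).subtype ((List.range (n + 1)).map (φ ∘ t)).prod := rfl
    rw [h1, map_list_prod, List.map_map]
    congr 1
    apply List.map_congr_left
    intro j _
    exact hφt j
  have hφs : ((φ (s₀ * k) : alternatingGroup Ω) : Perm Ω) = T := by
    have : φ k = 1 := MonoidHom.mem_ker.mp (hKker hk)
    rw [map_mul, this, mul_one, hφs₀]
  refine ⟨s₀ * k, hcomm.symm, ?_, ?_, ?_, ?_⟩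
  · rw [hφs]; exact hT1
  · rw [hφs]; exact hT2
  · rw [hφs]; exact hT3
  · intro c hc h1 h2 h3
    rw [hφs]
    exact hT4 c hc h1 h2 h3

end Pool.Agent.H91.NS.OR2
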